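import Pool.Agent.H70.RW.ESU
import Pool.Agent.H70.RK.T2

/-!
# The relativizing consequences of Σ_k ⊆ BQP and of PH ⊆ BQP: the theorem with arbitrary properties
-/

set_option autoImplicit false

namespace Pool.Agent.H70.RW

open Finset Filter
open Pool.Agent.H6.NB (QAlg)
open Pool.Agent.H70.OQ (Machine)
open Pool.Agent.H70.RC (Right RightP sec arrp)
open Pool.Agent.H70.RK (Adp Qst EasyK EasyKP sbs MajAt Ac)

/-- FNU: the theorem. -/
def T_FNU : Prop := ∀ κ : ℕ → ℕ, (∀ i, 1 ≤ κ i) →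
  ∀ f : (n : ℕ) → ((Fin n → Bool) → Bool) → Option Bool, (∀ n, ∃ X, f n X ≠ none) →
  ∀ (V : (i : ℕ) → Machine (κ i)) (τ : ℕ → ℕ → (List Bool → Bool) → Prop) (Q : ℕ → ℕ → QAlg)
    (R : ℕ → ℕ → Set QAlg) (W : ℕ → ℕ → (List Bool → Bool) → Bool) (S : ℕ → Set ℕ),
  (∀ j, ∃ c, ∀ n O O', (∀ w : List Bool, w.length ≤ n ^ c + c → O w = O' w) → τ j n O → τ j n O') →
  (∀ j, ∃ c, ∀ n, (Q j n).T ≤ n ^ c + c ∧ (Q j n).Short (n ^ c + c)) →
  (∀ j, ∃ c, ∀ n, ∀ A ∈ R j n, A.T ≤ n ^ c + c ∧ A.Short (n ^ c + c)) →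
  (∀ j, ∃ d c, ∀ n, Ac d (n ^ c + c) (W j n)) →
  ∃ O : List Bool → Bool, (∀ n, f n (sec O n) ≠ none) ∧
    (∀ i x, (x ∈ (V i).lang O → yesW O (inw (V i).c i x) = 1) ∧
      (x ∉ (V i).lang O → yesW O (inw (V i).c i x) = 0)) ∧
    (∀ j, (∀ᶠ n in atTop, n ∈ S j → τ j n O) →
      ∃ i c, ∀ᶠ n in atTop, n ∈ S j → SimK (κ i) n (n ^ c + c) (τ j n) (f n)) ∧
    (∀ j, (∀ᶠ n in atTop, n ∈ S j → Right (Q j n) O (f n (sec O n))) →
      ∃ i c, ∀ᶠ n in atTop, n ∈ S j → EasyK (κ i) n (n ^ c + c) (f n)) ∧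
    (∀ j, (∀ᶠ n in atTop, n ∈ S j → RightP (R j n) O (f n (sec O n))) →
      ∃ i c, ∀ᶠ n in atTop, n ∈ S j → EasyKP (κ i) n (n ^ c + c) (f n)) ∧
    (∀ j, (∀ᶠ n in atTop, n ∈ S j → f n (sec O n) = some (W j n O)) →
      ∀ᶠ n in atTop, n ∈ S j → MajAt n (W j n) (f n))

/-- The tests. -/
def tsu (τ : ℕ → ℕ → (List Bool → Bool) → Prop) (Q : ℕ → ℕ → QAlg) (R : ℕ → ℕ → Set QAlg)
    (W : ℕ → ℕ → (List Bool → Bool) → Bool) (j n : ℕ) (O : List Bool → Bool) (a : Option Bool) : Prop :=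
  if j % 4 = 0 then Right (Q (j / 4) n) O a else
    if j % 4 = 1 then RightP (R (j / 4) n) O a else
      if j % 4 = 2 then ∀ b, a = some b → W (j / 4) n O = b else a ≠ none → τ (j / 4) n O

/-- The exponents. -/
def ceu (cQ cR cW cT : ℕ → ℕ) (j : ℕ) : ℕ :=
  if j % 4 = 0 then cQ (j / 4) else if j % 4 = 1 then cR (j / 4) else
    if j % 4 = 2 then cW (j / 4) else cT (j / 4)

/-- The conclusions. -/
def cnu (KQ KR KT : ℕ → ℕ) (f : (n : ℕ) → ((Fin n → Bool) → Bool) → Option Bool)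
    (τ : ℕ → ℕ → (List Bool → Bool) → Prop)
    (W : ℕ → ℕ → (List Bool → Bool) → Bool) (j n m : ℕ) : Prop :=
  if j % 4 = 0 then EasyK (KQ (j / 4)) n m (f n) else
    if j % 4 = 1 then EasyKP (KR (j / 4)) n m (f n) else
      if j % 4 = 2 then MajAt n (W (j / 4) n) (f n) else SimK (KT (j / 4)) n m (τ (j / 4) n) (f n)

theorem max_lvl (κ : ℕ → ℕ) : ∀ c : ℕ, ∃ i, i ≤ c ∧ ∀ i', i' ≤ c → κ i' ≤ κ i
  | 0 => ⟨0, le_rfl, fun i' hi => by
      obtain rfl : i' = 0 := by omega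
      exact le_rfl⟩
  | c + 1 => by
    obtain ⟨i, hi, h⟩ := max_lvl κ c
    rcases le_total (κ (c + 1)) (κ i) with h1 | h1
    · refine ⟨i, by omega, fun i' hi' => ?_⟩
      rcases Nat.lt_or_ge c i' with h2 | h2
      · obtain rfl : i' = c + 1 := by omega
        exact h1
      · exact h i' h2
    · refine ⟨c + 1, le_rfl, fun i' hi' => ?_⟩
      rcases Nat.lt_or_ge c i' with h2 | h2
      · obtain rfl : i' = c + 1 := by omega
        exact le_rfl
      · exact (h i' h2).trans h1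

theorem pf_FNU (hESU : T_ESU) (hESY : Pool.Agent.H70.RW.T_ESY) (hESX : Pool.Agent.H70.RW.T_ESX)
    (hCLE : Pool.Agent.H70.RW.T_CLE)
    (hLOC : Pool.Agent.H70.RC.T_LOC) (hORC : T_ORC)
    (hBAS : T_BAS) (hCON : T_CON) (hEXO : T_EXO) (hINS : T_INS) (hSTR : T_STR) :
    T_FNU := by
  classical
  intro κ hκ f hf V τ Q R W S hτ hQ hR hW
  choose cT hcT using hτ
  choose cQ hcQ using hQ
  choose cR hcR using hR
  choose dW cW hcW using hW
  choose mx hmx1 hmx2 using max_lvl κ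
  have a1 : ∀ j n O O' a, (∀ w : List Bool, w.length ≤ n ^ (ceu cQ cR cW cT j) +
      ceu cQ cR cW cT j → O w = O' w) → tsu τ Q R W j n O a → tsu τ Q R W j n O' a := by
    intro j n O O' a hOO h
    unfold tsu ceu at *
    by_cases hj : j % 4 = 0
    · simp only [if_pos hj] at h hOO ⊢
      have hp := (hLOC (Q (j / 4) n)).2 _ O O' (hcQ (j / 4) n).2 hOO
      unfold Right at h ⊢
      rw [← hp]
      exact h
    · by_cases hj' : j % 4 = 1
      · simp only [if_neg hj, if_pos hj'] at h hOO ⊢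
        have hp : ∀ A ∈ R (j / 4) n, A.prob O = A.prob O' := fun A hA =>
          (hLOC A).2 _ O O' (hcR (j / 4) n A hA).2 hOO
        refine ⟨fun ha => ?_, fun ha A hA => ?_⟩
        · obtain ⟨A, hA, hA2⟩ := h.1 ha
          exact ⟨A, hA, by rw [← hp A hA]; exact hA2⟩
        · rw [← hp A hA]
          exact h.2 ha A hA
      · by_cases hj'' : j % 4 = 2
        · simp only [if_neg hj, if_neg hj', if_pos hj''] at h hOO ⊢
          intro b hb
          obtain ⟨p, _, hp⟩ := hcW (j / 4) n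
          rw [← h b hb, hp, hp]
          exact congrArg p (funext fun w => (hOO w.1 w.2).symm)
        · simp only [if_neg hj, if_neg hj', if_neg hj''] at h hOO ⊢
          exact fun ha => hcT (j / 4) n O O' hOO (h ha)
  have a2 : ∀ (j n : ℕ) (O : List Bool → Bool), tsu τ Q R W j n O none := by
    intro j n O
    unfold tsu
    by_cases hj : j % 4 = 0
    · simp only [if_pos hj]
      exact ⟨fun h => absurd h (by simp), fun h => absurd h (by simp)⟩
    · by_cases hj' : j % 4 = 1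
      · simp only [if_neg hj, if_pos hj']
        exact ⟨fun h => absurd h (by simp), fun h => absurd h (by simp)⟩
      · by_cases hj'' : j % 4 = 2
        · simp only [if_neg hj, if_neg hj', if_pos hj'']
          intro b hb
          exact absurd hb (by simp)
        · simp only [if_neg hj, if_neg hj', if_neg hj'']
          exact fun h => absurd rfl h
  have a3 : ∀ j, ∃ C : ℕ, ∀ᶠ n in atTop, ∀ N : ℕ,
      N = n ^ (ceu cQ cR cW cT j + 1) + ceu cQ cR cW cT j + 1 → ∀ D : Dat,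
      (∀ X, ∀ (a : Ad n N) (g : Ar n N) (P : Bl n N), okA a P →
        tsu τ Q R W j n (orc V (ina n N D X a g P)) (f n X)) →
      cnu (fun j => κ (mx (cQ j))) (fun j => κ (mx (cR j))) (fun j => κ (mx (cT j))) f τ W j n
        (n ^ C + C) := by
    intro j
    unfold tsu ceu cnu
    by_cases hj : j % 4 = 0
    · simp only [if_pos hj]
      exact hESY κ V f (Q (j / 4)) (cQ (j / 4)) (κ (mx (cQ (j / 4)))) (hκ _) (hmx2 _)
        (hcQ (j / 4))
    · by_cases hj' : j % 4 = 1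
      · simp only [if_neg hj, if_pos hj']
        exact hESX κ V f (R (j / 4)) (cR (j / 4)) (κ (mx (cR (j / 4)))) (hκ _) (hmx2 _)
          (hcR (j / 4))
      · by_cases hj'' : j % 4 = 2
        · simp only [if_neg hj, if_neg hj', if_pos hj'']
          exact ⟨0, hCLE (dW (j / 4)) (cW (j / 4)) κ V f (W (j / 4)) (hcW (j / 4))⟩
        · simp only [if_neg hj, if_neg hj', if_neg hj'']
          obtain ⟨C, hC⟩ := hESU κ V f (τ (j / 4)) (cT (j / 4)) (κ (mx (cT (j / 4)))) (hκ _)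
            (hmx2 _) (hcT (j / 4))
          exact ⟨C, hC.mono fun n hn N hN D h => hn N hN D fun X hX a g P hP => h X a g P hP hX⟩
  obtain ⟨O, h1, h2, h3⟩ := fin_gen hORC hBAS hCON hEXO hINS hSTR f hf V (tsu τ Q R W)
    (ceu cQ cR cW cT) (cnu (fun j => κ (mx (cQ j))) (fun j => κ (mx (cR j)))
      (fun j => κ (mx (cT j))) f τ W) (fun j => S (j / 4)) a1 a2 a3
  refine ⟨O, h1, h2, fun j hj => ⟨mx (cT j), ?_⟩, fun j hj => ⟨mx (cQ j), ?_⟩,
    fun j hj => ⟨mx (cR j), ?_⟩, fun j hj => ?_⟩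
  · have h4 := h3 (4 * j + 3)
    have e1 : ¬ (4 * j + 3) % 4 = 0 := by omega
    have e1' : ¬ (4 * j + 3) % 4 = 1 := by omega
    have e1'' : ¬ (4 * j + 3) % 4 = 2 := by omega
    have e2 : (4 * j + 3) / 4 = j := by omega
    simp only [tsu, cnu, if_neg e1, if_neg e1', if_neg e1'', e2] at h4
    by_contra h
    push Not at h
    have h5 := h4 h
    exact h5 (hj.mono fun n hn h6 => h6.2 fun _ => hn h6.1)
  · have h4 := h3 (4 * j)
    have e1 : (4 * j) % 4 = 0 := by omega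
    have e2 : (4 * j) / 4 = j := by omega
    simp only [tsu, cnu, e1, e2, if_true] at h4
    by_contra h
    push Not at h
    have h5 := h4 h
    exact h5 (hj.mono fun n hn h6 => h6.2 (hn h6.1))
  · have h4 := h3 (4 * j + 1)
    have e1 : ¬ (4 * j + 1) % 4 = 0 := by omega
    have e1' : (4 * j + 1) % 4 = 1 := by omega
    have e2 : (4 * j + 1) / 4 = j := by omega
    simp only [tsu, cnu, if_neg e1, if_pos e1', e2] at h4
    by_contra h
    push Not at h
    have h5 := h4 h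
    exact h5 (hj.mono fun n hn h6 => h6.2 (hn h6.1))
  · have h4 := h3 (4 * j + 2)
    have e1 : ¬ (4 * j + 2) % 4 = 0 := by omega
    have e1' : ¬ (4 * j + 2) % 4 = 1 := by omega
    have e1'' : (4 * j + 2) % 4 = 2 := by omega
    have e2 : (4 * j + 2) / 4 = j := by omega
    simp only [tsu, cnu, if_neg e1, if_neg e1', if_pos e1'', e2] at h4
    by_contra h
    have h5 := h4 fun _ => by
      rw [not_eventually] at h
      refine h.mono fun n hn => ?_
      push Not at hn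
      exact hn
    refine h5 (hj.mono fun n hn h6 => h6.2 fun b hb => ?_)
    have h7 := hn h6.1
    rw [h7] at hb
    exact Option.some.inj hb

end Pool.Agent.H70.RW
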