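import Pool.Agent.H70.RW.ORL

/-!
# The known bits are constants and variables
-/

set_option autoImplicit false

namespace Pool.Agent.H70.RW

open Finset Pool.Agent.H6.NB Pool.Agent.H70.OQ Pool.Agent.H78.XQ
open Pool.Agent.H70.RC (arrp)
open Pool.Agent.H70.RK (flat Ce Lt)

/-- The values of the oracle with junk as functions of a parameter. -/
theorem base_par (hBAS : T_BAS) {Y : Type} (D : (Y → Bool) → Dat)
    (w : List Bool)
    (h : ∀ p : Ps, (∃ b, ∀ y, val (D y) p = b) ∨ ∃ v, ∀ y, val (D y) p = y v) :
    (∃ b, ∀ y, base (D y) w = b) ∨ ∃ v, ∀ y, base (D y) w = y v := by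
  by_cases hw : ∃ p : Ps, w = str p
  · obtain ⟨p, rfl⟩ := hw
    rcases h p with ⟨b, hb⟩ | ⟨v, hv⟩
    · exact Or.inl ⟨b, fun y => by rw [hBAS.1, hb]⟩
    · exact Or.inr ⟨v, fun y => by rw [hBAS.1, hv]⟩
  · push Not at hw
    exact Or.inl ⟨false, fun y => hBAS.2 _ _ hw⟩

theorem pf_LIT (hSTR : T_STR) (hBAS : T_BAS) : T_LIT := by
  classical
  intro κ V n N D g P
  obtain ⟨i1, i2, i3, i4, i5⟩ := hSTR
  refine ⟨?_, ?_, fun X => ⟨?_, ?_, fun p u => ?_, fun p => ?_⟩⟩
  · intro K y hK
    rintro ⟨s, x⟩ ⟨s', x'⟩ h
    obtain ⟨s, hs⟩ := s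
    obtain ⟨s', hs'⟩ := s'
    have h1 : (⟨s, glu x (y ⟨s, hs⟩)⟩ : Σ s : List Bool, Aa s) =
        ⟨s', glu x' (y ⟨s', hs'⟩)⟩ := arrp_inj i1 h
    obtain ⟨rfl, h2⟩ := Sigma.mk.inj_iff.1 h1
    have h3 : glu x (y ⟨s, hs⟩) = glu x' (y ⟨s, hs⟩) := eq_of_heq h2
    have h4 : x = x' := by
      funext i
      have hi : i.1 < s.length := lt_of_lt_of_le i.2 (hK.trans hs.1)
      have h5 := congrFun h3 ⟨i.1, hi⟩
      simp only [glu] at h5
      rw [dif_pos i.2, dif_pos i.2] at h5
      exact h5
    rw [h4]
  · intro w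
    unfold lbv
    by_cases hp : ∃ p : Ps, str p = w ∧ lvl p < n
    · left
      exact ⟨orc V D w, fun c => if_pos hp⟩
    · simp only [if_neg hp]
      refine base_par (Y := Fin n → Bool) hBAS
        (fun X' => ina n N D X' (fun _ _ _ => false) g P) w fun q => ?_
      rcases q with x | x | x | x
      · obtain ⟨m, z⟩ := x
        by_cases hm : m = n
        · subst hm
          right
          refine ⟨z, fun y => ?_⟩
          simp only [val, ina]
          rw [Function.update_self]
        · left
          refine ⟨D.X m z, fun y => ?_⟩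
          simp only [val, ina]
          rw [Function.update_of_ne hm]
      · exact Or.inl ⟨val (ina n N D (fun _ => false) (fun _ _ _ => false) g P)
          (Sum.inr (Sum.inl x)), fun y => rfl⟩
      · exact Or.inl ⟨val (ina n N D (fun _ => false) (fun _ _ _ => false) g P)
          (Sum.inr (Sum.inr (Sum.inl x))), fun y => rfl⟩
      · exact Or.inl ⟨val (ina n N D (fun _ => false) (fun _ _ _ => false) g P)
          (Sum.inr (Sum.inr (Sum.inr x))), fun y => rfl⟩
  · rintro ⟨s, hs⟩ x
    have hstr : str (Sum.inr (Sum.inl ⟨s, x⟩) : Ps) = arrp s (flat x) := rfl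
    show lbv V D X g P (arrp s (flat x)) = g ⟨s, hs⟩ x
    unfold lbv
    have hno : ¬ ∃ p : Ps, str p = arrp s (flat x) ∧ lvl p < n := by
      rintro ⟨p, hp1, hp2⟩
      rw [← hstr] at hp1
      rw [i1 hp1] at hp2
      have : s.length < n := hp2
      omega
    rw [if_neg hno, ← hstr, hBAS.1]
    simp only [val, ina]
    rw [dif_pos hs]
  · intro g' w hw
    unfold lbv
    by_cases hp : ∃ p : Ps, str p = w ∧ lvl p < n
    · rw [if_pos hp, if_pos hp]
    · rw [if_neg hp, if_neg hp]
      by_cases hq : ∃ q : Ps, w = str q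
      · obtain ⟨q, rfl⟩ := hq
        rw [hBAS.1, hBAS.1]
        rcases q with x | x | x | x
        · rfl
        · simp only [val, ina]
          by_cases hx : n ≤ x.1.length ∧ x.1.length ≤ N
          · rw [dif_pos hx, dif_pos hx]
            exact hw ⟨x.1, hx⟩ x.2 rfl
          · rw [dif_neg hx, dif_neg hx]
        · rfl
        · rfl
      · push Not at hq
        rw [hBAS.2 _ _ hq, hBAS.2 _ _ hq]
  · intro w
    unfold lbv
    by_cases hp : ∃ p : Ps, str p = w ∧ lvl p < n
    · left
      exact ⟨orc V D w, fun c => if_pos hp⟩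
    · simp only [if_neg hp]
      refine base_par (Y := VV (qs (hl p))) hBAS (fun c => ina n N D X (fun _ _ _ => false) g
        (Function.update P p (Function.update (P p).1 u c, (P p).2))) w fun q => ?_
      rcases q with x | x | x | x
      · exact Or.inl ⟨Function.update D.X n X x.1 x.2, fun y => rfl⟩
      · exact Or.inl ⟨val (ina n N D X (fun _ _ _ => false) g P) (Sum.inr (Sum.inl x)),
          fun y => rfl⟩
      · by_cases hx : n ≤ x.1.1.length ∧ x.1.1.length ≤ N
        · by_cases hxp : (⟨⟨x.1.1, hx⟩, x.1.2⟩ : Bi n N) = p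
          · obtain ⟨⟨s, j⟩, u', v'⟩ := x
            subst hxp
            by_cases hu : u' = u
            · right
              refine ⟨v', fun y => ?_⟩
              simp only [val, ina]
              rw [dif_pos hx, Function.update_self, hu]
              simp only
              rw [Function.update_self]
            · left
              refine ⟨(P ⟨⟨s, hx⟩, j⟩).1 u' v', fun y => ?_⟩
              simp only [val, ina]
              rw [dif_pos hx, Function.update_self]
              exact congrFun (Function.update_of_ne hu y (P ⟨⟨s, hx⟩, j⟩).1) v'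
          · left
            refine ⟨(P ⟨⟨x.1.1, hx⟩, x.1.2⟩).1 x.2.1 x.2.2, fun y => ?_⟩
            simp only [val, ina]
            rw [dif_pos hx, Function.update_of_ne hxp]
        · left
          refine ⟨(D.c x.1).1 x.2.1 x.2.2, fun y => ?_⟩
          simp only [val, ina]
          rw [dif_neg hx]
      · left
        by_cases hx : n ≤ x.1.1.length ∧ x.1.1.length ≤ N
        · refine ⟨(P ⟨⟨x.1.1, hx⟩, x.1.2⟩).2 x.2, fun y => ?_⟩
          simp only [val, ina]
          rw [dif_pos hx]
          by_cases hxp : (⟨⟨x.1.1, hx⟩, x.1.2⟩ : Bi n N) = p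
          · obtain ⟨⟨s, j⟩, z⟩ := x
            subst hxp
            rw [Function.update_self]
          · rw [Function.update_of_ne hxp]
        · refine ⟨(D.c x.1).2 x.2, fun y => ?_⟩
          simp only [val, ina]
          rw [dif_neg hx]
  · intro w
    unfold lbv
    by_cases hp : ∃ p : Ps, str p = w ∧ lvl p < n
    · left
      exact ⟨orc V D w, fun c => if_pos hp⟩
    · simp only [if_neg hp]
      refine base_par (Y := Fin (wln (hl p)) → Bool) hBAS (fun c => ina n N D X
        (fun _ _ _ => false) g (Function.update P p ((P p).1, c))) w fun q => ?_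
      rcases q with x | x | x | x
      · exact Or.inl ⟨Function.update D.X n X x.1 x.2, fun y => rfl⟩
      · exact Or.inl ⟨val (ina n N D X (fun _ _ _ => false) g P) (Sum.inr (Sum.inl x)),
          fun y => rfl⟩
      · left
        by_cases hx : n ≤ x.1.1.length ∧ x.1.1.length ≤ N
        · refine ⟨(P ⟨⟨x.1.1, hx⟩, x.1.2⟩).1 x.2.1 x.2.2, fun y => ?_⟩
          simp only [val, ina]
          rw [dif_pos hx]
          by_cases hxp : (⟨⟨x.1.1, hx⟩, x.1.2⟩ : Bi n N) = p
          · obtain ⟨⟨s, j⟩, z⟩ := x
            subst hxp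
            rw [Function.update_self]
          · rw [Function.update_of_ne hxp]
        · refine ⟨(D.c x.1).1 x.2.1 x.2.2, fun y => ?_⟩
          simp only [val, ina]
          rw [dif_neg hx]
      · by_cases hx : n ≤ x.1.1.length ∧ x.1.1.length ≤ N
        · by_cases hxp : (⟨⟨x.1.1, hx⟩, x.1.2⟩ : Bi n N) = p
          · obtain ⟨⟨s, j⟩, z⟩ := x
            subst hxp
            right
            refine ⟨z, fun y => ?_⟩
            simp only [val, ina]
            rw [dif_pos hx, Function.update_self]
          · left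
            refine ⟨(P ⟨⟨x.1.1, hx⟩, x.1.2⟩).2 x.2, fun y => ?_⟩
            simp only [val, ina]
            rw [dif_pos hx, Function.update_of_ne hxp]
        · left
          refine ⟨(D.c x.1).2 x.2, fun y => ?_⟩
          simp only [val, ina]
          rw [dif_neg hx]

end Pool.Agent.H70.RW
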