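import Pool.Agent.H70.RW.T

/-!
# The oracle of a stage
-/

set_option autoImplicit false

namespace Pool.Agent.H70.RW

open Finset Pool.Agent.H6.NB Pool.Agent.H70.OQ Pool.Agent.H78.XQ
open Pool.Agent.H70.RC (arrp)
open Pool.Agent.H70.RK (flat)

/-- The data of a stage agree with the old data at the other levels. -/
theorem agr_ina (n N : ℕ) (D : Dat) (X : (Fin n → Bool) → Bool) (a : Ad n N)
    (g : Ar n N) (P : Bl n N) (hN : n ≤ N) :
    Agr (fun i => i < n ∨ N < i) D (ina n N D X a g P) := by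
  refine ⟨fun m hm => ?_, fun s hs => ?_, fun s hs => ?_, fun p hp => ?_⟩
  · have hne : m ≠ n := by omega
    simp only [ina]
    rw [Function.update_of_ne hne]
  · simp only [ina]
    rw [dif_neg (by omega)]
  · simp only [ina]
    rw [dif_neg (by omega)]
  · simp only [ina]
    rw [dif_neg (by omega)]

theorem arrp_inj (hinj : Function.Injective str) {s s' : List Bool}
    {a : Aa s} {a' : Aa s'} (h : arrp s (flat a) = arrp s' (flat a')) :
    (⟨s, a⟩ : Σ s : List Bool, Aa s) = ⟨s', a'⟩ := by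
  have h1 : str (Sum.inr (Sum.inl ⟨s, a⟩) : Ps) = str (Sum.inr (Sum.inl ⟨s', a'⟩) : Ps) := h
  have h2 := hinj h1
  exact Sum.inl.inj (Sum.inr.inj h2)

theorem pf_ORL (hSTR : T_STR) (hORC : T_ORC) (hBAS : T_BAS) : T_ORL := by
  classical
  intro κ V n N D X a g P hN
  obtain ⟨D', hD'⟩ : ∃ D', D' = ina n N D X a g P := ⟨_, rfl⟩
  obtain ⟨o1, o2, _⟩ := hORC κ V D'
  obtain ⟨i1, i2, i3, i4, i5⟩ := hSTR
  have hag := agr_ina n N D X a g P hN
  rw [← hD'] at hag ⊢
  have hD'a : ∀ s : Li n N, D'.a s.1 = a s := by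
    intro s
    rw [hD']
    simp only [ina]
    rw [dif_pos s.2]
  have hbase : ∀ w, base D' w = base (ina n N D X (fun _ _ _ => false) g P) w := by
    intro w
    rw [hD']
    unfold base
    by_cases hq : ∃ p : Ps, str p = w
    · rw [dif_pos hq, dif_pos hq]
      rcases hq.choose with x | x | x | x <;> rfl
    · rw [dif_neg hq, dif_neg hq]
  have h1 : Agr (fun i => i < n) D D' :=
    ⟨fun m hm => hag.1 m (Or.inl hm), fun s hs => hag.2.1 s (Or.inl hs),
      fun s hs => hag.2.2.1 s (Or.inl hs), fun p hp => hag.2.2.2 p (Or.inl hp)⟩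
  refine ⟨fun w hw hU => ?_, fun s => ?_, fun w hw => ?_⟩
  · unfold lbv
    by_cases hp : ∃ p : Ps, str p = w ∧ lvl p < n
    · rw [if_pos hp]
      obtain ⟨p, rfl, hp2⟩ := hp
      exact (((hORC κ V D).2.2 D' n h1).1 p hp2).symm
    · rw [if_neg hp, ← hbase]
      refine o1 w fun s hs => ?_
      by_cases h1 : s.length < n
      · exact hp ⟨Sum.inr (Sum.inl ⟨s, D'.a s⟩), hs.symm, h1⟩
      by_cases h2 : s.length ≤ N
      · refine hU ⟨s, by omega, h2⟩ ?_
        have h4 := hD'a ⟨s, by omega, h2⟩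
        simp only at h4
        rw [← h4]
        exact hs
      · have h3 := i3 s (D'.a s)
        have h4 : w.length = (arrp s (flat (D'.a s))).length := by rw [hs]; rfl
        rcases hw with hw | ⟨s', x, hx⟩
        · omega
        · have h5 := i4 _ _ _ _ (hx.symm.trans hs)
          have h6 := s'.2.2
          rw [h5] at h6
          omega
  · have h2 : arrp s.1 (flat (a s)) = star D' s.1 := by
      unfold star
      rw [hD'a]
    rw [h2]
    exact o2 s.1
  · exact (((hORC κ V D).2.2 D' n h1).2 w hw.le).symm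

end Pool.Agent.H70.RW
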