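import Pool.Agent.H70.RK.Abs
import Pool.Agent.H70.RW.BLG
import Pool.Agent.H70.RW.Fin4
import Pool.Agent.H70.RW.LIT
import Pool.Agent.H70.RW.ORL
import Pool.Agent.H25.RW.GTE
import Pool.Agent.H25.RW.NUM
import Pool.Agent.H28.RW.ESX
import Pool.Agent.H28.RW.ESY
import Pool.Agent.H28.RW.LST
import Pool.Agent.H28.RW.MUG
import Pool.Agent.H33.RW.STR
import Pool.Agent.H46.RW.ANL
import Pool.Agent.H46.RW.BAS
import Pool.Agent.H46.RW.CONB
import Pool.Agent.H46.RW.EXO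
import Pool.Agent.H46.RW.MUM
import Pool.Agent.H46.RW.ORC
import Pool.Agent.H49.RW.STA
import Pool.Agent.H60.RW.CLE
import Pool.Agent.H60.RW.EVO
import Pool.Agent.H79.RW.RZG
import Pool.Agent.H97.RW.CLH
import Pool.Agent.H97.RW.PLN
import Pool.Agent.H97.RW.STB

/-!
# The relativizing consequences of Σ_k ⊆ BQP and of PH ⊆ BQP: assembly
-/

set_option autoImplicit false

namespace Pool.Agent.H70.RW

open Pool.Agent.H78.XQ Pool.Agent.H70.EI Pool.Agent.H70.RK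

theorem all_STR : Pool.Agent.H70.RW.T_STR := Pool.Agent.H33.RW.pf_STR pf_COD_NB

theorem all_BAS : Pool.Agent.H70.RW.T_BAS := Pool.Agent.H46.RW.pf_BAS all_STR

theorem all_ANL : Pool.Agent.H70.RW.T_ANL := Pool.Agent.H46.RW.pf_ANL pf_COD_NB

theorem all_INS : Pool.Agent.H70.RW.T_INS := Pool.Agent.H46.RW.pf_INS pf_COD_NB

theorem all_GTE : Pool.Agent.H70.RW.T_GTE := Pool.Agent.H25.RW.pf_GTE pf_COD_NB

theorem all_ORC : Pool.Agent.H70.RW.T_ORC := Pool.Agent.H46.RW.pf_ORC all_STR all_ANL all_BAS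

theorem all_CON : Pool.Agent.H70.RW.T_CON := Pool.Agent.H46.RW.pf_CON pf_BLX pf_MAS all_STR pf_CLB_NB

theorem all_EXO : Pool.Agent.H70.RW.T_EXO := Pool.Agent.H46.RW.pf_EXO pf_EXA all_ORC all_BAS all_STR

theorem all_ORL : Pool.Agent.H70.RW.T_ORL := pf_ORL all_STR all_ORC all_BAS

theorem all_LIT : Pool.Agent.H70.RW.T_LIT := pf_LIT all_STR all_BAS

theorem all_BLG : Pool.Agent.H70.RW.T_BLG :=
  pf_BLG pf_BLX pf_MAS pf_CLB_NB all_GDC all_CVF all_LIT all_STR all_GTL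

theorem all_RZG : Pool.Agent.H70.RW.T_RZG := Pool.Agent.H79.RW.pf_RZG all_RZK all_CVF all_LIT all_GTL

theorem all_MUG : Pool.Agent.H70.RW.T_MUG := Pool.Agent.H28.RW.pf_MUG all_BLG all_RZG all_HYC pf_MAS

theorem all_MUM : Pool.Agent.H70.RW.T_MUM := Pool.Agent.H46.RW.pf_MUM pf_MAS

theorem all_LST : Pool.Agent.H70.RW.T_LST := Pool.Agent.H28.RW.pf_LST all_MUG all_MUM
  Pool.Agent.H25.RW.pf_NUM Pool.Agent.H60.RC.pf_NEW

theorem all_EVO : Pool.Agent.H70.RW.T_EVO := Pool.Agent.H60.RW.pf_EVO all_RDT all_RDW all_VLK all_CVF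
  all_ORL all_LIT Pool.Agent.H52.RC.pf_LVL all_GTL all_ADM all_STR

theorem all_ESY : Pool.Agent.H70.RW.T_ESY := Pool.Agent.H28.RW.pf_ESY all_LST all_EVO all_GTE all_ADM
  Pool.Agent.H52.RC.pf_SIM Pool.Agent.H60.RC.pf_LOC

theorem all_ESX : Pool.Agent.H70.RW.T_ESX := Pool.Agent.H28.RW.pf_ESX all_LST all_EVO all_GTE all_ADM
  Pool.Agent.H6.RC.pf_SIX Pool.Agent.H60.RC.pf_LOC

theorem all_ESU : T_ESU := pf_ESU all_LST all_EVO all_GTE all_STR all_ORC all_BAS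

theorem all_PLN : Pool.Agent.H70.RW.T_PLN := Pool.Agent.H97.RW.pf_PLN all_STR all_BAS all_ANL all_ORC

theorem all_STB : Pool.Agent.H70.RW.T_STB := Pool.Agent.H97.RW.pf_STB all_TVX all_PLN all_ANL

theorem all_STA : Pool.Agent.H70.RW.T_STA := Pool.Agent.H49.RW.pf_STA all_HYC pf_BLX pf_MAS pf_CLB_NB
  all_STR all_PLN

theorem all_CLH : Pool.Agent.H70.RW.T_CLH := Pool.Agent.H97.RW.pf_CLH all_STA all_STB all_PLN pf_MAS

theorem all_CLE : Pool.Agent.H70.RW.T_CLE := Pool.Agent.H60.RW.pf_CLE all_CLH Pool.Agent.H60.RC.pf_NEW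
  Pool.Agent.H25.RW.pf_NUM all_LIT pf_MAS

theorem all_FNU : T_FNU := pf_FNU all_ESU all_ESY all_ESX all_CLE Pool.Agent.H60.RC.pf_LOC all_ORC all_BAS
  all_CON all_EXO all_INS all_STR

end Pool.Agent.H70.RW
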