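import Pool.Agent.H70.RW.Stmt

/-!
# The relativizing consequences of Σ_k ⊆ BQP and of PH ⊆ BQP: simulated oracles
-/

set_option autoImplicit false

namespace Pool.Agent.H70.RW

open Pool.Agent.H6.NB Pool.Agent.H70.OQ Pool.Agent.H78.XQ Pool.Agent.H70.RC Pool.Agent.H70.RK

/-- Let `τ` be a property of oracles. `SimK k n m τ f`: there are `2 ^ n + 1` simulations of an oracle, each
answer `e i w X` (the value of the simulated oracle number `i` at the string `w`) is computed from the truth
table `X : {0,1}^n → {0,1}` by at most `m` adaptive questions of level `k` and size `m` (that is, in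
P^(Σ_k) in the query model), and for every `X` in the domain of `f` at least 99 percent of the simulated
oracles have the section `X` and the property `τ`. -/
def SimK (k n m : ℕ) (τ : (List Bool → Bool) → Prop) (f : ((Fin n → Bool) → Bool) → Option Bool) :
    Prop :=
  ∃ e : Fin (2 ^ n + 1) → List Bool → ((Fin n → Bool) → Bool) → Bool,
    (∀ i w, Adp (Qst (Fin n → Bool) m k) m (e i w)) ∧
    ∀ X, f X ≠ none → 100 * {i | ¬ (sec (fun w => e i w X) n = X ∧ τ fun w => e i w X)}.ncard ≤ 2 ^ n + 1

end Pool.Agent.H70.RW
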