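import Pool.Agent.H70.RK.Stmt

/-!
# The relativizing consequences of Σ_k ⊆ BQP and of PH ⊆ BQP: definitions

The classes `EasyK`, `EasyKP`, `MajAt`, `Ac` of the query model are those of `Pool.Agent.H70.RK.Stmt`.
-/

set_option autoImplicit false

namespace Pool.Agent.H70.RW

open Pool.Agent.H6.NB Pool.Agent.H70.OQ Pool.Agent.H78.XQ Pool.Agent.H70.RC Pool.Agent.H70.RK

/-- The instance string for the input `x` of the machine number `i` with exponent `c`. -/
def inw (c i : ℕ) (x : List Bool) : List Bool :=
  code x (List.replicate i true) ((x.length ^ c + c + 1) ^ (i + 2))

/-- The instance string of the bit number `(i, j)` of the address which belongs to `s`. -/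
def hmw (s : List Bool) (i j : ℕ) : List Bool :=
  code s (List.replicate i true ++ false :: List.replicate j true) (16 * (s.length + 20) ^ 3)

/-- The acceptance probability of the following quantum algorithm: for all `i < |s|` and `j < 4 |s|` run the
exact algorithm `exact (hmw s i j)`, let `a i j` be its outcome; query the oracle at the string
`arrp s (flat a)` and accept iff the oracle contains it. -/
noncomputable def yesW (O : List Bool → Bool) (s : List Bool) : ℝ :=
  ∑ a : Fin s.length → Fin (4 * s.length) → Bool, (∏ i, ∏ j,
    if a i j then (exact (hmw s i j)).prob O else 1 - (exact (hmw s i j)).prob O) *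
    (if O (arrp s (flat a)) then 1 else 0)

end Pool.Agent.H70.RW
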