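import Pool.Agent.H70.RW.Stmt
import Pool.Agent.H70.RK.T1

/-!
# The relativizing consequences of Σ_k ⊆ BQP and of PH ⊆ BQP: definitions for the proof
-/

set_option autoImplicit false

namespace Pool.Agent.H70.RW

open Finset Pool.Agent.H6.NB Pool.Agent.H70.OQ Pool.Agent.H78.XQ
open Pool.Agent.H70.RC (Term DNF pv fv psat run Bad Arry Right RightP sec arrp)
open Pool.Agent.H70.RK (Adp Qst EasyK EasyKP sbs MajAt Ac flat TR bl tm dn vt can cv Gt gmap gval gbs gsz Ce
  dwn sti Hn adr red gd WC Lt)
open Pool.Agent.H70.EH (pos)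

/-! ### Instances -/

section

variable {κ : ℕ → ℕ}

/-- The answer of the instance `s`. -/
def ans (V : (i : ℕ) → Machine (κ i)) (O : List Bool → Bool) (s : List Bool) : Prop :=
  ∃ (i : ℕ) (x : List Bool), s = inw (V i).c i x ∧ x ∈ (V i).lang O

end

/-! ### Positions -/

/-- The indices of the blocks: the block `(s, i, j)` encodes the bit number `(i, j)` of the address of
`s`. -/
abbrev Bx : Type := Σ s : List Bool, Fin s.length × Fin (4 * s.length)

/-- The instance string of a block. -/
def hb (p : Bx) : List Bool := hmw p.1 p.2.1 p.2.2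

/-- The content of the block with the instance string `h`. -/
abbrev CB (h : List Bool) : Type :=
  ((Fin (2 * h.length) → Bool) → VV (qs h) → Bool) × ((Fin (wln h) → Bool) → Bool)

/-- The block says the bit `b`. -/
def okb (h : List Bool) (b : Bool) (c : CB h) : Prop := OkB (qs h) h.length (rns h) (wln h) b c

/-- The chunks of the addresses. -/
abbrev Ck (s : List Bool) : Type := Fin (4 * s.length) → Bool

/-- The addresses. -/
abbrev Aa (s : List Bool) : Type := Fin s.length → Ck s

/-- Positions of the oracle: entries of the sections, entries of the arrays, copies and correction strings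
of the blocks. -/
abbrev Ps : Type := (Σ n : ℕ, Fin n → Bool) ⊕ (Σ s : List Bool, Aa s) ⊕
  (Σ p : Bx, (Fin (2 * (hb p).length) → Bool) × VV (qs (hb p))) ⊕ (Σ p : Bx, Fin (wln (hb p)) → Bool)

/-- The string of a position. -/
def str : Ps → List Bool
  | .inl x => false :: List.ofFn x.2
  | .inr (.inl x) => arrp x.1 (flat x.2)
  | .inr (.inr (.inl x)) => pos (hb x.1) (List.ofFn x.2.1) (List.ofFn x.2.2.2) x.2.2.1
  | .inr (.inr (.inr x)) => wps (hb x.1) (List.ofFn x.2)

/-- The level of a position. -/
def lvl : Ps → ℕ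
  | .inl x => x.1
  | .inr (.inl x) => x.1.length
  | .inr (.inr (.inl x)) => x.1.1.length
  | .inr (.inr (.inr x)) => x.1.1.length

/-- The data of an oracle: sections, addresses, arrays and blocks. -/
structure Dat where
  X : (n : ℕ) → (Fin n → Bool) → Bool
  a : (s : List Bool) → Aa s
  h : (s : List Bool) → Aa s → Bool
  c : (p : Bx) → CB (hb p)

/-- The blocks encode the addresses and the sections are in the domain of `f`. -/
def Dat.Ok (f : (n : ℕ) → ((Fin n → Bool) → Bool) → Option Bool) (D : Dat) : Prop :=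
  (∀ n, f n (D.X n) ≠ none) ∧ ∀ p : Bx, okb (hb p) (D.a p.1 p.2.1 p.2.2) (D.c p)

/-- The value of a position, with junk in the arrays. -/
def val (D : Dat) : Ps → Bool
  | .inl x => D.X x.1 x.2
  | .inr (.inl x) => D.h x.1 x.2
  | .inr (.inr (.inl x)) => (D.c x.1).1 x.2.1 x.2.2
  | .inr (.inr (.inr x)) => (D.c x.1).2 x.2

open Classical in
/-- The oracle with junk in the arrays. -/
noncomputable def base (D : Dat) (w : List Bool) : Bool :=
  if h : ∃ p : Ps, str p = w then val D h.choose else false

/-- The position of the answer of the instance `s`. -/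
def star (D : Dat) (s : List Bool) : List Bool := arrp s (flat (D.a s))

section

variable {κ : ℕ → ℕ}

open Classical in
/-- The oracle with the answers of the instances of length less than `L`. -/
noncomputable def lev (V : (i : ℕ) → Machine (κ i)) (D : Dat) : ℕ → List Bool → Bool
  | 0 => base D
  | L + 1 => fun w => if h : ∃ s : List Bool, s.length = L ∧ w = star D s then
      decide (ans V (lev V D L) h.choose) else lev V D L w

/-- The oracle. -/
noncomputable def orc (V : (i : ℕ) → Machine (κ i)) (D : Dat) (w : List Bool) : Bool :=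
  lev V D w.length w

end

/-- The data agree at the levels `i` with `Z i`. -/
def Agr (Z : ℕ → Prop) (D D' : Dat) : Prop :=
  (∀ n, Z n → D.X n = D'.X n) ∧ (∀ s : List Bool, Z s.length → D.a s = D'.a s) ∧
  (∀ s : List Bool, Z s.length → D.h s = D'.h s) ∧ ∀ p : Bx, Z p.1.length → D.c p = D'.c p

/-! ### One stage -/

/-- The live instances. -/
abbrev Li (n N : ℕ) : Type := {s : List Bool // n ≤ s.length ∧ s.length ≤ N}

noncomputable instance (n N : ℕ) : Fintype (Li n N) :=
  (Set.Finite.subset (List.finite_length_le Bool N) fun _ h => h.2 :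
    {s : List Bool | n ≤ s.length ∧ s.length ≤ N}.Finite).fintype

/-- The indices of the live blocks. -/
abbrev Bi (n N : ℕ) : Type := Σ s : Li n N, Fin s.1.length × Fin (4 * s.1.length)

/-- The instance string of a live block. -/
def hl {n N : ℕ} (p : Bi n N) : List Bool := hb ⟨p.1.1, p.2⟩

/-- The addresses of the live instances. -/
abbrev Ad (n N : ℕ) : Type := (s : Li n N) → Aa s.1

/-- The arrays of the live instances. -/
abbrev Ar (n N : ℕ) : Type := (s : Li n N) → Aa s.1 → Bool

/-- The contents of the live blocks. -/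
abbrev Bl (n N : ℕ) : Type := (p : Bi n N) → CB (hl p)

open Classical in
/-- The data with the section `X` at the level `n` and the addresses, arrays and blocks between the levels
`n` and `N`. -/
noncomputable def ina (n N : ℕ) (D : Dat) (X : (Fin n → Bool) → Bool) (a : Ad n N)
    (g : Ar n N) (P : Bl n N) : Dat where
  X := Function.update D.X n X
  a := fun s => if h : n ≤ s.length ∧ s.length ≤ N then a ⟨s, h⟩ else D.a s
  h := fun s => if h : n ≤ s.length ∧ s.length ≤ N then g ⟨s, h⟩ else D.h s
  c := fun p => if h : n ≤ p.1.length ∧ p.1.length ≤ N then P ⟨⟨p.1, h⟩, p.2⟩ else D.c p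

/-- The ends of the addresses (all chunks except the first `K`). -/
abbrev Rs (K n N : ℕ) : Type := (s : Li n N) → Fin (s.1.length - K) → Ck s.1

/-- The hints for the live instances. -/
abbrev Hi (K n N : ℕ) : Type := Hn (Li n N) (fun s => Ck s.1) K

/-- An address from its first `K` chunks and its end. -/
def glu {K : ℕ} {s : List Bool} (a : Fin K → Ck s) (y : Fin (s.length - K) → Ck s) : Aa s :=
  fun i => if h : i.1 < K then a ⟨i.1, h⟩ else y ⟨i.1 - K, by have := i.2; omega⟩

/-- The seeds: ends, hints, arrays and blocks. -/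
abbrev Se (K n N : ℕ) : Type := Rs K n N × Hi K n N × Ar n N × Bl n N

noncomputable instance Se.fint (K n N : ℕ) : Fintype (Se K n N) :=
  @instFintypeProd (Rs K n N) (Hi K n N × Ar n N × Bl n N) _ _

/-- The addresses of the seeds. -/
def adk {K n N : ℕ} (y : Rs K n N) (H : Hi K n N) : Ad n N := fun s => glu (adr K H s) (y s)

/-- The data with the section `X` and the seeds `σ`. -/
noncomputable def ins {K : ℕ} (n N : ℕ) (D : Dat) (X : (Fin n → Bool) → Bool) (σ : Se K n N) : Dat :=
  ina n N D X (adk σ.1 σ.2.1) σ.2.2.1 σ.2.2.2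

/-- The positions of the entries of the live arrays with the ends `y`. -/
def pk {K n N : ℕ} (y : Rs K n N) (x : Ce (Li n N) (fun s => Ck s.1) K) : List Bool :=
  arrp x.1.1 (flat (glu x.2 (y x.1)))

section

variable {κ : ℕ → ℕ}

open Classical in
/-- The known bits (with junk in the live arrays). -/
noncomputable def lbv (V : (i : ℕ) → Machine (κ i)) {n N : ℕ} (D : Dat) (X : (Fin n → Bool) → Bool)
    (g : Ar n N) (P : Bl n N) (w : List Bool) : Bool :=
  if ∃ p : Ps, str p = w ∧ lvl p < n then orc V D w
  else base (ina n N D X (fun _ _ _ => false) g P) w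

/-- `G s` is a gate for the answer of the live instance `s` relative to all oracles which agree with the
oracle of the data `D` on the strings of length less than `n`. -/
structure Gf (V : (i : ℕ) → Machine (κ i)) (D : Dat) (n N K : ℕ)
    (G : Li n N → Gt Pool.Agent.H6.NB.DT K) (t : Li n N → ℕ) : Prop where
  sq : ∀ s, (t s + 1) ^ 2 ≤ s.1.length + 1
  len : ∀ s, gsz (2 ^ (t s + 1)) K (G s)
  dp : ∀ s, ∀ T ∈ gbs K (G s), T.depth ≤ t s
  ql : ∀ s, ∀ T ∈ gbs K (G s), T.Short (t s)
  ans : ∀ s O, (∀ w : List Bool, w.length < n → O w = orc V D w) →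
    (ans V O s.1 ↔ gval (fun T => T.eval O) K (G s) = true)

/-- The gate of the instance `s`: decision trees over the entries of the live arrays with the ends `y`. -/
noncomputable def gs (V : (i : ℕ) → Machine (κ i)) {K n N : ℕ} (G : Li n N → Gt Pool.Agent.H6.NB.DT K)
    (D : Dat) (X : (Fin n → Bool) → Bool) (y : Rs K n N) (g : Ar n N) (P : Bl n N) (s : Li n N) :
    Gt (TR (List Bool)) K :=
  gmap (fun T => cv (fun w => ∃ x : Ce (Li n N) (fun s => Ck s.1) K, pk y x = w)
    (lbv V D X g P) [] T) K (G s)

/-- All canonical evaluations stop within `N` rounds. -/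
def GoodS (V : (i : ℕ) → Machine (κ i)) {K n N : ℕ} (G : Li n N → Gt Pool.Agent.H6.NB.DT K) (D : Dat)
    (X : (Fin n → Bool) → Bool) (σ : Se K n N) : Prop :=
  ∀ s : Li n N, gd (lbv V D X σ.2.2.1 σ.2.2.2) N K N (pk σ.1) σ.2.1
    (gs V G D X σ.1 σ.2.2.1 σ.2.2.2 s)

end

/-- The blocks encode the addresses. -/
def okA {n N : ℕ} (a : Ad n N) (P : Bl n N) : Prop :=
  ∀ p : Bi n N, okb (hl p) (a p.1 p.2.1 p.2.2) (P p)

/-- The blocks encode the addresses. -/
def okE {K n N : ℕ} (σ : Se K n N) : Prop := okA (adk σ.1 σ.2.1) σ.2.2.2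

/-- The distribution of the seeds. -/
noncomputable def mu {K n N : ℕ} (σ : Se K n N) : ℝ :=
  1 / ((Fintype.card (Rs K n N) : ℝ) * Fintype.card (Hi K n N) * Fintype.card (Ar n N)) *
    ∏ p : Bi n N, mB (qs (hl p)) (hl p).length (rns (hl p)) (wln (hl p))
      (adk σ.1 σ.2.1 p.1 p.2.1 p.2.2) (σ.2.2.2 p)

end Pool.Agent.H70.RW
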