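import Pool.Agent.H70.RW.Fin2
import Pool.Agent.H70.RW.Stmt2

/-!
# Properties which the oracles of a stage always have
-/

set_option autoImplicit false

namespace Pool.Agent.H70.RW

open Finset Filter
open Pool.Agent.H6.NB (QAlg)
open Pool.Agent.H70.OQ (Machine)
open Pool.Agent.H70.RC (Right RightP sec arrp)
open Pool.Agent.H70.RK (Adp Qst)

/-- ESU: if the oracles of a stage always have a property then the simulated oracles have it. -/
def T_ESU : Prop := ∀ (κ : ℕ → ℕ) (V : (i : ℕ) → Machine (κ i))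
  (f : (n : ℕ) → ((Fin n → Bool) → Bool) → Option Bool) (τ : ℕ → (List Bool → Bool) → Prop)
  (c K : ℕ), 1 ≤ K → (∀ i, i ≤ c → κ i ≤ K) →
  (∀ n O O', (∀ w : List Bool, w.length ≤ n ^ c + c → O w = O' w) → τ n O → τ n O') →
  ∃ C : ℕ, ∀ᶠ n in atTop, ∀ N : ℕ, N = n ^ (c + 1) + c + 1 → ∀ D : Dat,
    (∀ X, f n X ≠ none → ∀ (a : Ad n N) (g : Ar n N) (P : Bl n N), okA a P →
      τ n (orc V (ina n N D X a g P))) →
    SimK K n (n ^ C + C) (τ n) (f n)

theorem pf_ESU (hLST : T_LST) (hEVO : Pool.Agent.H70.RW.T_EVO) (hGTE : T_GTE) (hSTR : T_STR)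
    (hORC : T_ORC) (hBAS : T_BAS) : T_ESU := by
  classical
  intro κ V f τ c K hK hκ hτ
  obtain ⟨C, hC⟩ := hEVO κ V c K hK
  refine ⟨C, ?_⟩
  filter_upwards [hLST κ V c K hK, eventually_ge_atTop (max 4 K)] with n hn hn4 N hN D hD
  have h4 : 4 ≤ n := le_trans (le_max_left _ _) hn4
  have hKn : K ≤ n := le_trans (le_max_right _ _) hn4
  obtain ⟨G, t, hG⟩ := hGTE κ V c K hK hκ n N (by omega) hN D
  obtain ⟨l, hl1, hl2⟩ := hn N hN D G t hG
  choose e he1 he2 using fun i => hC n N h4 hKn hN D G t hG (l i)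
  have hnN : n + 1 ≤ N := by
    have : n ^ 1 ≤ n ^ (c + 1) := Nat.pow_le_pow_right (by omega) (by omega)
    rw [pow_one] at this
    omega
  have hcN : n ^ c + c ≤ N := by
    have : n ^ c ≤ n ^ (c + 1) := Nat.pow_le_pow_right (by omega) (by omega)
    omega
  refine ⟨e, he1, fun X hX => le_trans (Nat.mul_le_mul_left _ ?_) (hl2 X)⟩
  rw [← Set.ncard_coe_finset]
  refine Set.ncard_le_ncard ?_ (Set.toFinite _)
  intro i hi
  simp only [Set.mem_setOf_eq] at hi
  simp only [coe_filter, mem_univ, true_and, Set.mem_setOf_eq]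
  intro hg
  refine hi ⟨?_, ?_⟩
  · have h1 := sec_orc hSTR hORC hBAS V (ins n N D X (l i)) n
    have h2 : (ins n N D X (l i)).X n = X := by
      unfold ins ina
      exact Function.update_self _ _ _
    rw [h2] at h1
    funext w
    refine Eq.trans (he2 i X hg (false :: List.ofFn w) ?_).symm (congrFun h1 w)
    rw [List.length_cons, List.length_ofFn]
    exact hnN
  · refine hτ n _ _ (fun w hw => he2 i X hg w (hw.trans hcN)) (hD X hX _ _ _ (hl1 i))

end Pool.Agent.H70.RW
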