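import Pool.Agent.H70.RW.Defs

/-!
# The relativizing consequences of Σ_k ⊆ BQP and of PH ⊆ BQP: module targets
-/

set_option autoImplicit false

namespace Pool.Agent.H70.RW

open Finset Filter Pool.Agent.H6.NB Pool.Agent.H70.OQ Pool.Agent.H78.XQ
open Pool.Agent.H70.RC (Term DNF pv fv psat run Bad Arry Right RightP sec arrp)
open Pool.Agent.H70.RK (Adp Qst EasyK EasyKP sbs MajAt Ac flat TR bl tm dn vt can cv Gt gmap gval gbs gsz Ce
  dwn sti Hn adr red gd WC Lt)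

/-! ## Part D: the oracle -/

/-- STR: the strings of the positions. -/
def T_STR : Prop := Function.Injective str ∧ (∀ p : Ps, lvl p < (str p).length) ∧
  (∀ (s : List Bool) (a : Aa s), s.length < (arrp s (flat a)).length) ∧
  (∀ (s s' : List Bool) (a : Aa s) (a' : Aa s'), arrp s (flat a) = arrp s' (flat a') → s = s') ∧
  ∀ p : Bx, Sz (p.1.length + 20) (hb p).length (qs (hb p)) (rns (hb p)) (wln (hb p))

/-- INS: the instance strings. -/
def T_INS : Prop := ∀ (κ : ℕ → ℕ) (V : (i : ℕ) → Machine (κ i)) (O : List Bool → Bool) (i : ℕ)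
  (x : List Bool), ans V O (inw (V i).c i x) ↔ x ∈ (V i).lang O

/-- ANL: the answer of an instance depends only on shorter strings. -/
def T_ANL : Prop := ∀ (κ : ℕ → ℕ) (V : (i : ℕ) → Machine (κ i)) (O O' : List Bool → Bool)
  (s : List Bool), (∀ w : List Bool, w.length < s.length → O w = O' w) → (ans V O s ↔ ans V O' s)

/-- GTE: gates for the answers of the live instances. -/
def T_GTE : Prop := ∀ (κ : ℕ → ℕ) (V : (i : ℕ) → Machine (κ i)) (c K : ℕ), 1 ≤ K →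
  (∀ i, i ≤ c → κ i ≤ K) → ∀ n N : ℕ, 1 ≤ n → N = n ^ (c + 1) + c + 1 → ∀ D : Dat,
  ∃ G t, Gf V D n N K G t

/-- BAS: the oracle with junk in the arrays. -/
def T_BAS : Prop := (∀ (D : Dat) (p : Ps), base D (str p) = val D p) ∧
  ∀ (D : Dat) (w : List Bool), (∀ p : Ps, w ≠ str p) → base D w = false

/-- ORC: the values of the oracle. -/
def T_ORC : Prop := ∀ (κ : ℕ → ℕ) (V : (i : ℕ) → Machine (κ i)) (D : Dat),
  (∀ w, (∀ s, w ≠ star D s) → orc V D w = base D w) ∧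
  (∀ s, (orc V D (star D s) = true ↔ ans V (orc V D) s)) ∧
  ∀ (D' : Dat) (m : ℕ), Agr (fun i => i < m) D D' →
    (∀ p : Ps, lvl p < m → orc V D (str p) = orc V D' (str p)) ∧
    ∀ w : List Bool, w.length ≤ m → orc V D w = orc V D' w

/-- CON: contents of the blocks. -/
def T_CON : Prop := ∀ (p : Bx) (b : Bool), ∃ c : CB (hb p), okb (hb p) b c

/-- EXO: the exact algorithm. -/
def T_EXO : Prop := ∀ (κ : ℕ → ℕ) (V : (i : ℕ) → Machine (κ i))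
  (f : (n : ℕ) → ((Fin n → Bool) → Bool) → Option Bool) (D : Dat), D.Ok f →
  ∀ s, (ans V (orc V D) s → yesW (orc V D) s = 1) ∧ (¬ ans V (orc V D) s → yesW (orc V D) s = 0)

/-- ORL: the oracle of a stage. -/
def T_ORL : Prop := ∀ (κ : ℕ → ℕ) (V : (i : ℕ) → Machine (κ i)) (n N : ℕ) (D : Dat)
  (X : (Fin n → Bool) → Bool) (a : Ad n N) (g : Ar n N) (P : Bl n N), n ≤ N →
  (∀ w : List Bool, (w.length ≤ N ∨ ∃ (s : Li n N) (x : Aa s.1), w = arrp s.1 (flat x)) →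
    (∀ s : Li n N, w ≠ arrp s.1 (flat (a s))) → orc V (ina n N D X a g P) w = lbv V D X g P w) ∧
  (∀ s : Li n N, (orc V (ina n N D X a g P) (arrp s.1 (flat (a s))) = true ↔
    ans V (orc V (ina n N D X a g P)) s.1)) ∧
  ∀ w : List Bool, w.length < n → orc V (ina n N D X a g P) w = orc V D w

/-- LIT: the known bits. -/
def T_LIT : Prop := ∀ (κ : ℕ → ℕ) (V : (i : ℕ) → Machine (κ i)) (n N : ℕ) (D : Dat) (g : Ar n N)
  (P : Bl n N),
  (∀ (K : ℕ) (y : Rs K n N), K ≤ n → Function.Injective (pk y)) ∧ (Lt fun X => lbv V D X g P) ∧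
  ∀ X : (Fin n → Bool) → Bool,
  (∀ (s : Li n N) (x : Aa s.1), lbv V D X g P (arrp s.1 (flat x)) = g s x) ∧
  (∀ (g' : Ar n N) (w : List Bool),
    (∀ (s : Li n N) (x : Aa s.1), w = arrp s.1 (flat x) → g s x = g' s x) →
    lbv V D X g P w = lbv V D X g' P w) ∧
  (∀ (p : Bi n N) (u : Fin (2 * (hl p).length) → Bool),
    Lt fun c => lbv V D X g (Function.update P p (Function.update (P p).1 u c, (P p).2))) ∧
  ∀ p : Bi n N, Lt fun c => lbv V D X g (Function.update P p ((P p).1, c))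

/-! ## Part E: good seeds -/

open Classical in
/-- BLG: being good does not see a block. -/
def T_BLG : Prop := ∀ (κ : ℕ → ℕ) (V : (i : ℕ) → Machine (κ i)) (D : Dat) (n N K : ℕ)
  (G : Li n N → Gt Pool.Agent.H6.NB.DT K) (t : Li n N → ℕ), 1 ≤ K → Gf V D n N K G t → 2 ≤ N →
  4 * K ≤ n → n ≤ N → (8 * N) ^ (K + 1) ≤ 2 ^ (n + 20) ^ 2 → ∀ (X : (Fin n → Bool) → Bool)
    (y : Rs K n N) (H : Hi K n N) (g : Ar n N) (P : Bl n N) (p : Bi n N) (b : Bool),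
  ∑ c : CB (hl p), m0 (qs (hl p)) (hl p).length (wln (hl p)) c *
      (if GoodS V G D X (y, H, g, Function.update P p c) then 1 else 0) -
    (1 / 8) ^ (p.1.1.length + 20) ≤
  ∑ c : CB (hl p), mB (qs (hl p)) (hl p).length (rns (hl p)) (wln (hl p)) b c *
      (if GoodS V G D X (y, H, g, Function.update P p c) then 1 else 0)

open Classical in
/-- RZG: for given blocks and ends most hints and arrays are good. -/
def T_RZG : Prop := ∀ (κ : ℕ → ℕ) (V : (i : ℕ) → Machine (κ i)) (D : Dat) (n N K : ℕ)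
  (G : Li n N → Gt Pool.Agent.H6.NB.DT K) (t : Li n N → ℕ), 1 ≤ K → Gf V D n N K G t → 2 ≤ N →
  K ≤ n → n ≤ N → 4 * N ^ (K + 2) ≤ 2 ^ (4 * n) → ∀ (X : (Fin n → Bool) → Bool) (y : Rs K n N)
    (P : Bl n N),
  (1 - 2 ^ (N + 1) * (K * (2 ^ N) ^ K * (3 * (4 * N ^ (K + 2) / 2 ^ (4 * n)) ^ N))) *
      ((Fintype.card (Hi K n N) : ℝ) * Fintype.card (Ar n N)) ≤
    ∑ H : Hi K n N, ∑ g : Ar n N, if GoodS V G D X (y, H, g, P) then (1 : ℝ) else 0

open Classical in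
/-- MUG: the mass of the good seeds. -/
def T_MUG : Prop := ∀ (κ : ℕ → ℕ) (V : (i : ℕ) → Machine (κ i)) (D : Dat) (n N K : ℕ)
  (G : Li n N → Gt Pool.Agent.H6.NB.DT K) (t : Li n N → ℕ), 1 ≤ K → Gf V D n N K G t → 2 ≤ N →
  4 * K ≤ n → n ≤ N → 4 * N ^ (K + 2) ≤ 2 ^ (4 * n) → (8 * N) ^ (K + 1) ≤ 2 ^ (n + 20) ^ 2 →
  ∀ (X : (Fin n → Bool) → Bool),
  1 - (∑ p : Bi n N, (1 / 8 : ℝ) ^ (p.1.1.length + 20) +
    2 ^ (N + 1) * (K * (2 ^ N) ^ K * (3 * (4 * N ^ (K + 2) / 2 ^ (4 * n)) ^ N))) ≤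
  ∑ σ : Se K n N, mu σ * (if GoodS V G D X σ then 1 else 0)

/-- MUM: the masses. -/
def T_MUM : Prop := ∀ K n N : ℕ, (∀ σ : Se K n N, 0 ≤ mu σ) ∧ ∑ σ : Se K n N, mu σ ≤ 1 ∧
  ∀ σ : Se K n N, mu σ ≠ 0 → okE σ

/-- NUM: estimates. -/
def T_NUM : Prop := ∀ K c : ℕ, 1 ≤ K → ∀ᶠ n in atTop, ∀ N : ℕ, N = n ^ (c + 1) + c + 1 →
  2 ≤ N ∧ 4 * K ≤ n ∧ n ≤ N ∧ 4 * N ^ (K + 2) ≤ 2 ^ (4 * n) ∧ (8 * N) ^ (K + 1) ≤ 2 ^ (n + 20) ^ 2 ∧
  ∑ p : Bi n N, (1 / 8 : ℝ) ^ (p.1.1.length + 20) +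
    2 ^ (N + 1) * (K * (2 ^ N) ^ K * (3 * (4 * N ^ (K + 2) / 2 ^ (4 * n) : ℝ) ^ N)) ≤ (1 / 2) ^ 300 ∧
  ∑ p : Bi n N, (1 / 8 : ℝ) ^ (p.1.1.length + 20) + ∑ s : Li n N, (1 / 4 : ℝ) ^ s.1.length ≤
    (1 / 2) ^ 300

open Classical in
/-- LST: the list of seeds. -/
def T_LST : Prop := ∀ (κ : ℕ → ℕ) (V : (i : ℕ) → Machine (κ i)) (c K : ℕ), 1 ≤ K →
  ∀ᶠ n in atTop, ∀ N : ℕ, N = n ^ (c + 1) + c + 1 → ∀ (D : Dat)
    (G : Li n N → Gt Pool.Agent.H6.NB.DT K) (t : Li n N → ℕ), Gf V D n N K G t →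
  ∃ l : Fin (2 ^ n + 1) → Se K n N, (∀ i, okE (l i)) ∧
    ∀ X : (Fin n → Bool) → Bool,
      100 * (univ.filter fun i => ¬ GoodS V G D X (l i)).card ≤ 2 ^ n + 1

/-- EVO: for good seeds the oracle is in P^(Σ_K). -/
def T_EVO : Prop := ∀ (κ : ℕ → ℕ) (V : (i : ℕ) → Machine (κ i)) (c K : ℕ), 1 ≤ K →
  ∃ C : ℕ, ∀ n N : ℕ, 4 ≤ n → K ≤ n → N = n ^ (c + 1) + c + 1 → ∀ (D : Dat)
    (G : Li n N → Gt Pool.Agent.H6.NB.DT K) (t : Li n N → ℕ), Gf V D n N K G t →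
    ∀ (σ : Se K n N), ∃ e : List Bool → ((Fin n → Bool) → Bool) → Bool,
      (∀ w, Adp (Qst (Fin n → Bool) (n ^ C + C) K) (n ^ C + C) (e w)) ∧
      ∀ X, GoodS V G D X σ → ∀ w : List Bool, w.length ≤ N → orc V (ins n N D X σ) w = e w X

/-- ESY: if an algorithm is always right then the function is easy. -/
def T_ESY : Prop := ∀ (κ : ℕ → ℕ) (V : (i : ℕ) → Machine (κ i))
  (f : (n : ℕ) → ((Fin n → Bool) → Bool) → Option Bool) (Q : ℕ → QAlg) (c K : ℕ), 1 ≤ K →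
  (∀ i, i ≤ c → κ i ≤ K) → (∀ n, (Q n).T ≤ n ^ c + c ∧ (Q n).Short (n ^ c + c)) →
  ∃ C : ℕ, ∀ᶠ n in atTop, ∀ N : ℕ, N = n ^ (c + 1) + c + 1 → ∀ D : Dat,
    (∀ X, ∀ (a : Ad n N) (g : Ar n N) (P : Bl n N), okA a P →
      Right (Q n) (orc V (ina n N D X a g P)) (f n X)) →
    EasyK K n (n ^ C + C) (f n)

/-- ESX: if a set of algorithms is always right then the function is easy. -/
def T_ESX : Prop := ∀ (κ : ℕ → ℕ) (V : (i : ℕ) → Machine (κ i))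
  (f : (n : ℕ) → ((Fin n → Bool) → Bool) → Option Bool) (R : ℕ → Set QAlg) (c K : ℕ), 1 ≤ K →
  (∀ i, i ≤ c → κ i ≤ K) → (∀ n, ∀ A ∈ R n, A.T ≤ n ^ c + c ∧ A.Short (n ^ c + c)) →
  ∃ C : ℕ, ∀ᶠ n in atTop, ∀ N : ℕ, N = n ^ (c + 1) + c + 1 → ∀ D : Dat,
    (∀ X, ∀ (a : Ad n N) (g : Ar n N) (P : Bl n N), okA a P →
      RightP (R n) (orc V (ina n N D X a g P)) (f n X)) →
    EasyKP K n (n ^ C + C) (f n)

/-! ## Part F: classical classes -/

/-- PLN: the oracle `lev` of a stage. -/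
def T_PLN : Prop := ∀ (κ : ℕ → ℕ) (V : (i : ℕ) → Machine (κ i)) (n N L : ℕ) (D : Dat)
  (X : (Fin n → Bool) → Bool) (a : Ad n N) (g : Ar n N) (P : Bl n N), n ≤ L → L ≤ N →
  (∀ w, lev V (ina n N D X a g P) n w = lbv V D X g P w) ∧
  (∀ w : List Bool, w.length ≤ N → lev V (ina n N D X a g P) (N + 1) w =
    orc V (ina n N D X a g P) w) ∧
  (∀ (a' : Ad n N) (g' : Ar n N) (P' : Bl n N), (∀ s : Li n N, s.1.length < L → a s = a' s) →
    (∀ s : Li n N, s.1.length < L → g s = g' s) → (∀ p : Bi n N, p.1.1.length < L → P p = P' p) →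
    (∀ w : List Bool, w.length ≤ L → lev V (ina n N D X a g P) L w = lev V (ina n N D X a' g' P') L w) ∧
    (g = g' → P = P' → ∀ w, lev V (ina n N D X a g P) L w = lev V (ina n N D X a' g' P') L w)) ∧
  (∀ b : Li n N → Bool, (∀ s : Li n N, s.1.length = L →
      (b s = true ↔ ans V (lev V (ina n N D X a g P) L) s.1)) →
    ∀ w, lev V (ina n N D X a g P) (L + 1) w = lev V (ina n N D X a (fun s =>
      if s.1.length = L then Function.update (g s) (a s) (b s) else g s) P) L w) ∧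
  (∀ p : Bi n N, p.1.1.length = L →
    (∀ u : Fin (2 * (hl p).length) → Bool, Lt fun c => lev V (ina n N D X a g
      (Function.update P p (Function.update (P p).1 u c, (P p).2))) (L + 1)) ∧
    Lt fun c => lev V (ina n N D X a g (Function.update P p ((P p).1, c))) (L + 1))

/-- The weight of a block: the blocks of the instances of length less than `L` encode the addresses. -/
noncomputable def mw {n N : ℕ} (L : ℕ) (a : Ad n N) (p : Bi n N) (c : CB (hl p)) : ℝ :=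
  if p.1.1.length < L then
    mB (qs (hl p)) (hl p).length (rns (hl p)) (wln (hl p)) (a p.1 p.2.1 p.2.2) c
  else m0 (qs (hl p)) (hl p).length (wln (hl p)) c

/-- STB: the answers of the instances of length `L` can be replaced by junk. -/
def T_STB : Prop := ∀ (κ : ℕ → ℕ) (V : (i : ℕ) → Machine (κ i)) (n N L : ℕ) (D : Dat)
  (X : (Fin n → Bool) → Bool) (P : Bl n N) (Φ : (List Bool → Bool) → ℝ) (wt : Ad n N → ℝ),
  n ≤ L → L ≤ N → (∀ O, 0 ≤ Φ O ∧ Φ O ≤ 1) → (∀ a, 0 ≤ wt a) →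
  (∀ a a', (∀ s : Li n N, s.1.length ≠ L → a s = a' s) → wt a = wt a') →
  ∑ a : Ad n N, ∑ g : Ar n N, wt a * Φ (lev V (ina n N D X a g P) L) -
      (∑ s : Li n N, if s.1.length = L then (1 / 4 : ℝ) ^ L else 0) *
        ∑ a : Ad n N, ∑ _g : Ar n N, wt a ≤
    ∑ a : Ad n N, ∑ g : Ar n N, wt a * Φ (lev V (ina n N D X a g P) (L + 1))

open Classical in
/-- STA: the blocks of the instances of length `L` can be replaced by random blocks. -/
def T_STA : Prop := ∀ (d m : ℕ) (κ : ℕ → ℕ) (V : (i : ℕ) → Machine (κ i)) (n N L : ℕ) (D : Dat)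
  (X : (Fin n → Bool) → Bool) (a : Ad n N) (g : Ar n N) (W : (List Bool → Bool) → Bool)
  (b : Bool), n ≤ L → L ≤ N → Ac d m W → d ≤ n → m ≤ 2 ^ (n + 20) ^ 2 →
  ∑ P : Bl n N, (∏ p, mw L a p (P p)) *
      (if W (lev V (ina n N D X a g P) (L + 1)) = b then 1 else 0) -
    (∑ p : Bi n N, if p.1.1.length = L then (1 / 8 : ℝ) ^ (p.1.1.length + 20) else 0) ≤
  ∑ P : Bl n N, (∏ p, mw (L + 1) a p (P p)) *
      (if W (lev V (ina n N D X a g P) (L + 1)) = b then 1 else 0)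

open Classical in
/-- CLH: a formula does not see the answers. -/
def T_CLH : Prop := ∀ (d m : ℕ) (κ : ℕ → ℕ) (V : (i : ℕ) → Machine (κ i)) (n N : ℕ) (D : Dat)
  (X : (Fin n → Bool) → Bool) (W : (List Bool → Bool) → Bool) (b : Bool),
  n ≤ N → m ≤ N → Ac d m W → d ≤ n → m ≤ 2 ^ (n + 20) ^ 2 →
  ∑ g : Ar n N, ∑ P : Bl n N, 1 / (Fintype.card (Ar n N) : ℝ) *
      (∏ p, m0 (qs (hl p)) (hl p).length (wln (hl p)) (P p)) *
      (if W (lbv V D X g P) = b then 1 else 0) -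
    (∑ p : Bi n N, (1 / 8 : ℝ) ^ (p.1.1.length + 20) + ∑ s : Li n N, (1 / 4 : ℝ) ^ s.1.length) ≤
  ∑ a : Ad n N, ∑ g : Ar n N, ∑ P : Bl n N,
    1 / ((Fintype.card (Ad n N) : ℝ) * Fintype.card (Ar n N)) *
      (∏ p, mB (qs (hl p)) (hl p).length (rns (hl p)) (wln (hl p)) (a p.1 p.2.1 p.2.2) (P p)) *
      (if W (orc V (ina n N D X a g P)) = b then 1 else 0)

/-- CLE: if a formula is always right then the function is computed by its restrictions. -/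
def T_CLE : Prop := ∀ (d c : ℕ) (κ : ℕ → ℕ) (V : (i : ℕ) → Machine (κ i))
  (f : (n : ℕ) → ((Fin n → Bool) → Bool) → Option Bool) (W : ℕ → (List Bool → Bool) → Bool),
  (∀ n, Ac d (n ^ c + c) (W n)) →
  ∀ᶠ n in atTop, ∀ N : ℕ, N = n ^ (c + 1) + c + 1 → ∀ D : Dat,
    (∀ X, ∀ (a : Ad n N) (g : Ar n N) (P : Bl n N), okA a P →
      ∀ b, f n X = some b → W n (orc V (ina n N D X a g P)) = b) →
    MajAt n (W n) (f n)

end Pool.Agent.H70.RW
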